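import Pool.Agent.K7.H12.UI.Defs

/-!
Project UI, job CHAIN: `StUB → StChain`.
-/

set_option autoImplicit false

namespace Pool.Agent.K7.H7.UI

open Pool.Agent.K7.H12.UI

section
variable {X V : Type} {F : SimpleGraph X} {G : SimpleGraph V}

/-- a vertex `b` of a good copy which is adjacent to `z` is adjacent to `z'` -/
theorem good_adj {A : Finset V} {s z z' : V}
    (hadj : ∀ a ∈ A, a ≠ s → (G.Adj a z ↔ G.Adj a z')) {φ : X → V}
    (hgood : ∀ c ∈ sd G z z', c ∈ Set.range φ → c ∈ A) {b : V} (hb : b ∈ Set.range φ)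
    (hbs : b ≠ s) (hbz : b ≠ z) (hbz' : b ≠ z') : G.Adj z b ↔ G.Adj z' b := by
  by_contra hcon
  have h1 : b ∈ sd G z z' := ⟨hbz, hbz', hcon⟩
  have h2 := hgood b h1 hb
  apply hcon
  have h3 := hadj b h2 hbs
  rw [G.adj_comm z b, G.adj_comm z' b]
  exact h3

end

open Classical in
theorem step (hUB : StUB) {X V : Type} [Finite X] [Finite V] [Nonempty V] {F : SimpleGraph X}
    {G : SimpleGraph V} {s : V} {A : Finset V}
    {E : (X → V) → Prop} (hs : s ∈ A)
    (hE : ∀ φ, Function.Injective φ → E φ → ∀ a ∈ A, a ∈ Set.range φ) {z z' : V} {P : Set V}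
    (hz : z ∉ P) (hz' : z' ∉ P) (hzA : z ∉ A) (hzA' : z' ∉ A) (hne : z ≠ z')
    (hadj : ∀ a ∈ A, a ≠ s → (G.Adj a z ↔ G.Adj a z'))
    (hEτ : ∀ φ, E φ → ∀ τ : Equiv.Perm V, (∀ c, c ≠ z → c ≠ z' → τ c = c) → E (τ ∘ φ)) :
    mu F (upd G s (insert z P)) E ≤ mu F (upd G s (insert z' P)) E +
      ((sd G z z').ncard : ℝ) * err X V (A.card + 2) := by
  have hsz : s ≠ z := fun h => hzA (h ▸ hs)
  have hsz' : s ≠ z' := fun h => hzA' (h ▸ hs)
  -- the bad copies
  obtain ⟨E', hE'⟩ : ∃ E' : (X → V) → Prop, E' = fun φ => E φ ∧ z ∈ Set.range φ ∧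
    ∃ c ∈ sd G z z', c ∉ insert z A ∧ c ∈ Set.range φ := ⟨_, rfl⟩
  have hbad : mu F (upd G s (insert z P)) E' ≤
      ((sd G z z').ncard : ℝ) * err X V (A.card + 2) := by
    have h1 := (hUB X V F (upd G s (insert z P)) E' (insert z A)).2 (sd G z z') (by
      intro φ hφ hEφ
      rw [hE'] at hEφ
      refine ⟨?_, hEφ.2.2⟩
      intro a ha
      rcases Finset.mem_insert.1 ha with rfl | ha
      · exact hEφ.2.1
      · exact hE φ hφ hEφ.1 a ha)
    rwa [Finset.card_insert_of_notMem hzA] at h1
  obtain ⟨τ, hτ⟩ : ∃ τ : Equiv.Perm V, τ = Equiv.swap z z' := ⟨_, rfl⟩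
  have hτz : τ z = z' := by rw [hτ]; exact Equiv.swap_apply_left _ _
  have hτz' : τ z' = z := by rw [hτ]; exact Equiv.swap_apply_right _ _
  have hτc : ∀ c, c ≠ z → c ≠ z' → τ c = c := fun c h1 h2 => by
    rw [hτ]; exact Equiv.swap_apply_of_ne_of_ne h1 h2
  have hτs : ∀ c, τ c = s ↔ c = s := by
    intro c
    constructor
    · intro h
      have h1 : τ s = s := hτc s hsz hsz'
      exact τ.injective (h.trans h1.symm)
    · rintro rfl
      exact hτc _ hsz hsz'
  -- the map
  obtain ⟨T, hT⟩ : ∃ T : (X → V) → (X → V), T = fun φ => if Uses F s z φ then τ ∘ φ else φ :=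
    ⟨_, rfl⟩
  have hT1 : ∀ φ, Uses F s z φ → T φ = τ ∘ φ := fun φ h => by rw [hT]; exact if_pos h
  have hT2 : ∀ φ, ¬ Uses F s z φ → T φ = φ := fun φ h => by rw [hT]; exact if_neg h
  -- copies for `insert z P` do not use `s - z'`
  have hnouse : ∀ φ ∈ homs F (upd G s (insert z P)) E, ¬ Uses F s z' φ := by
    rintro φ ⟨_, h2, _⟩ ⟨x, y, hxy, hx, hy⟩
    have h3 := h2 x y hxy
    rw [hx, hy] at h3
    rcases h3 with h | h | h
    · exact h.1 rfl
    · rcases h.2.2 with h3 | h3
      · exact hne h3.symm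
      · exact hz' h3
    · exact hsz' h.1.symm
  have hmaps : ∀ φ ∈ homs F (upd G s (insert z P)) E \
      homs F (upd G s (insert z P)) E', T φ ∈ homs F (upd G s (insert z' P)) E := by
    rintro φ ⟨⟨h1, h2, h3⟩, h4⟩
    by_cases hu : Uses F s z φ
    · rw [hT1 φ hu]
      have hzr : z ∈ Set.range φ := by
        obtain ⟨x, y, _, _, hy⟩ := hu
        exact ⟨y, hy⟩
      have hgood : ∀ c ∈ sd G z z', c ∈ Set.range φ → c ∈ A := by
        intro c hc hcr
        by_contra hcA
        apply h4
        refine ⟨h1, h2, ?_⟩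
        rw [hE']
        refine ⟨h3, hzr, c, hc, ?_, hcr⟩
        rw [Finset.mem_insert]
        rintro (h | h)
        · exact hc.1 h
        · exact hcA h
      refine ⟨τ.injective.comp h1, ?_, hEτ φ h3 τ hτc⟩
      intro x y hxy
      have e2 := h2 x y hxy
      change (τ (φ x) ≠ s ∧ τ (φ y) ≠ s ∧ G.Adj (τ (φ x)) (τ (φ y))) ∨
          (τ (φ x) = s ∧ τ (φ y) ≠ s ∧ τ (φ y) ∈ insert z' P) ∨
          (τ (φ y) = s ∧ τ (φ x) ≠ s ∧ τ (φ x) ∈ insert z' P)
      have hin : ∀ c, c ∈ insert z P → τ c ∈ insert z' P := by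
        rintro c (h | h)
        · left
          rw [h, hτz]
        · right
          rw [hτc c (fun h' => hz (h' ▸ h)) (fun h' => hz' (h' ▸ h))]
          exact h
      -- adjacency away from `s`
      have hga : ∀ b ∈ Set.range φ, b ≠ s → b ≠ z → b ≠ z' → (G.Adj z b ↔ G.Adj z' b) :=
        fun b hb h1 h2 h3 => good_adj hadj hgood hb h1 h2 h3
      have hG2 : ∀ b c, b ∈ Set.range φ → c ∈ Set.range φ → b ≠ s → c ≠ s → G.Adj b c →
          G.Adj (τ b) (τ c) := by
        intro b c hb hc hbs hcs hbc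
        by_cases b1 : b = z
        · rw [b1, hτz]
          rw [b1] at hbc
          by_cases c2 : c = z'
          · rw [c2, hτz']
            rw [c2] at hbc
            exact hbc.symm
          · have c1 : c ≠ z := fun h => hbc.ne h.symm
            rw [hτc c c1 c2]
            exact (hga c hc hcs c1 c2).1 hbc
        · by_cases b2 : b = z'
          · rw [b2, hτz']
            rw [b2] at hbc
            by_cases c1 : c = z
            · rw [c1, hτz]
              rw [c1] at hbc
              exact hbc.symm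
            · have c2 : c ≠ z' := fun h => hbc.ne h.symm
              rw [hτc c c1 c2]
              exact (hga c hc hcs c1 c2).2 hbc
          · rw [hτc b b1 b2]
            by_cases c1 : c = z
            · rw [c1, hτz]
              rw [c1] at hbc
              exact ((hga b hb hbs b1 b2).1 hbc.symm).symm
            · by_cases c2 : c = z'
              · rw [c2, hτz']
                rw [c2] at hbc
                exact ((hga b hb hbs b1 b2).2 hbc.symm).symm
              · rw [hτc c c1 c2]
                exact hbc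
      rcases e2 with e2 | e2 | e2
      · left
        obtain ⟨f1, f2, f3⟩ := e2
        exact ⟨fun h => f1 ((hτs _).1 h), fun h => f2 ((hτs _).1 h),
          hG2 _ _ ⟨x, rfl⟩ ⟨y, rfl⟩ f1 f2 f3⟩
      · right
        left
        exact ⟨(hτs _).2 e2.1, fun h => e2.2.1 ((hτs _).1 h), hin _ e2.2.2⟩
      · right
        right
        exact ⟨(hτs _).2 e2.1, fun h => e2.2.1 ((hτs _).1 h), hin _ e2.2.2⟩
    · rw [hT2 φ hu]
      refine ⟨h1, ?_, h3⟩
      intro x y hxy
      rcases h2 x y hxy with e2 | e2 | e2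
      · exact Or.inl e2
      · right
        left
        refine ⟨e2.1, e2.2.1, ?_⟩
        rcases e2.2.2 with h | h
        · exact absurd ⟨x, y, hxy, e2.1, h⟩ hu
        · exact Or.inr h
      · right
        right
        refine ⟨e2.1, e2.2.1, ?_⟩
        rcases e2.2.2 with h | h
        · exact absurd ⟨y, x, hxy.symm, e2.1, h⟩ hu
        · exact Or.inr h
  have huses : ∀ φ, Uses F s z φ → Uses F s z' (τ ∘ φ) := by
    rintro φ ⟨x, y, hxy, hx, hy⟩
    refine ⟨x, y, hxy, (hτs _).2 hx, ?_⟩
    change τ (φ y) = z'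
    rw [hy, hτz]
  have hinj : Set.InjOn T (homs F (upd G s (insert z P)) E \
      homs F (upd G s (insert z P)) E') := by
    rintro φ ⟨hφ, _⟩ ψ ⟨hψ, _⟩ h
    by_cases h1 : Uses F s z φ
    · by_cases h2 : Uses F s z ψ
      · rw [hT1 φ h1, hT1 ψ h2] at h
        exact τ.injective.comp_left h
      · exfalso
        rw [hT1 φ h1, hT2 ψ h2] at h
        exact hnouse ψ hψ (h ▸ huses φ h1)
    · by_cases h2 : Uses F s z ψ
      · exfalso
        rw [hT2 φ h1, hT1 ψ h2] at h
        exact hnouse φ hφ (h.symm ▸ huses ψ h2)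
      · rwa [hT2 φ h1, hT2 ψ h2] at h
  have hcard : (homs F (upd G s (insert z P)) E).ncard ≤
      (homs F (upd G s (insert z' P)) E).ncard +
        (homs F (upd G s (insert z P)) E').ncard := by
    have c1 := Set.ncard_le_ncard_sdiff_add_ncard (homs F (upd G s (insert z P)) E)
      (homs F (upd G s (insert z P)) E') (Set.toFinite _)
    have c2 := Set.ncard_le_ncard_of_injOn T hmaps hinj (Set.toFinite _)
    omega
  refine le_trans ?_ (add_le_add_right hbad _)
  unfold mu
  rw [← add_div]
  refine div_le_div_of_nonneg_right ?_ (by positivity)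
  exact_mod_cast hcard

/-- JOB CHAIN -/
theorem chain (hUB : StUB) : StChain := by
  classical
  intro X V _ _ _ F G s A E hs hE ι I f f'
  induction I using Finset.induction_on with
  | empty =>
    intro U _ _ _ _
    simp
  | insert i J hi ih =>
    intro U hI hf hf' hff
    have hJ : ∀ j ∈ J, j ∈ insert i J := fun j hj => Finset.mem_insert_of_mem hj
    have hii : i ∈ insert i J := Finset.mem_insert_self i J
    obtain ⟨a1, a2, a3, a4, a6, a7⟩ := hI i hii
    have hP : f i ∉ U ∪ f '' (J : Set ι) := by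
      rintro (h | ⟨j, hj, h⟩)
      · exact a1 h
      · have := hf (hJ j hj) hii h
        exact hi (this ▸ hj)
    have hP' : f' i ∉ U ∪ f '' (J : Set ι) := by
      rintro (h | ⟨j, hj, h⟩)
      · exact a2 h
      · exact hff j (hJ j hj) i hii h
    have h1 := step (F := F) (G := G) hUB hs hE hP hP' a3 a4 (hff i hii i hii) a6 a7
    have h2 := ih (insert (f' i) U) (by
      intro j hj
      obtain ⟨b1, b2, b3⟩ := hI j (hJ j hj)
      refine ⟨?_, ?_, b3⟩
      · rintro (h | h)
        · exact hff j (hJ j hj) i hii h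
        · exact b1 h
      · rintro (h | h)
        · have := hf' (hJ j hj) hii h
          exact hi (this ▸ hj)
        · exact b2 h)
      (hf.mono (by exact_mod_cast Finset.subset_insert i J))
      (hf'.mono (by exact_mod_cast Finset.subset_insert i J))
      (fun j hj k hk => hff j (hJ j hj) k (hJ k hk))
    have e1 : U ∪ f '' ((insert i J : Finset ι) : Set ι) = insert (f i) (U ∪ f '' (J : Set ι)) := by
      rw [Finset.coe_insert, Set.image_insert_eq, Set.union_insert]
    have e2 : insert (f' i) (U ∪ f '' (J : Set ι)) = insert (f' i) U ∪ f '' (J : Set ι) := by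
      rw [Set.insert_union]
    have e3 : insert (f' i) U ∪ f' '' (J : Set ι) = U ∪ f' '' ((insert i J : Finset ι) : Set ι) := by
      rw [Finset.coe_insert, Set.image_insert_eq, Set.union_insert, Set.insert_union]
    rw [Finset.sum_insert hi, e1]
    rw [e2] at h1
    rw [e3] at h2
    linarith

end Pool.Agent.K7.H7.UI
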