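import Pool.Agent.K7.H12.UI.Conc

/-!
# Project UI, job WB: column hubs and the bulk
-/

set_option autoImplicit false

namespace Pool.Agent.K7.H7.UI

open Pool.Agent.K7.H12.UI

theorem err_succ (X V : Type) (q : ℕ) :
    err X V (q + 1) = err X V q * ((Nat.card X : ℝ) / (Nat.card V : ℝ)) := pow_succ _ _

theorem ok_mono {P : Par} {A A' B : ℕ} (hok : Ok P A B) (hA : A' ≤ A) : Ok P A' B where
  blk_lt := hok.blk_lt
  blk_mono := hok.blk_mono
  blk_card := hok.blk_card
  even := hok.even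
  hr := hA.trans hok.hr
  hb := (Nat.mul_le_mul_right _ hA).trans hok.hb
  hB := (Nat.mul_le_mul_right _ (Nat.mul_le_mul_right _ hA)).trans hok.hB

theorem wb (hM : StMove) (hL : StLB1) (hZ : StSize) (hW : StW) : StWB := by
  classical
  intro X _ F R hR
  obtain ⟨c, hc, A1, hL⟩ := hL X F R hR
  obtain ⟨C, hC0, A2, hZ⟩ := hZ
  obtain ⟨A3, hW⟩ := hW X F R hR
  obtain ⟨A4, hA4⟩ := exists_nat_gt (2 * C / c)
  obtain ⟨A5, hA5⟩ := exists_nat_gt (C * (Nat.card X : ℝ) * 4 / c)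
  refine ⟨A1 + A2 + A3 + A4 + A5 + 2, ?_⟩
  intro P B hok p j'
  have hL := hL P B (ok_mono hok (by omega))
  obtain ⟨hm0, hn0, hbB, -, -, hn2, -, -, hsw, -, hsd, hmiss⟩ := hZ P B (ok_mono hok (by omega))
  have hW := hW P B (ok_mono hok (by omega))
  have hrA := hok.hr
  have hbA := hok.hb
  have hBA := hok.hB
  have hr2 : 2 ≤ P.r := by omega
  have hr1 : 1 ≤ P.r := by omega
  have hbA' : A1 + A2 + A3 + A4 + A5 + 2 ≤ P.b := by
    refine le_trans ?_ hbA
    exact Nat.le_mul_of_pos_right _ (by positivity)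
  have hB1 : 1 ≤ B := by
    refine le_trans ?_ hBA
    have : 0 < (A1 + A2 + A3 + A4 + A5 + 2) * P.r * P.b := by
      have : 0 < P.b := by omega
      positivity
    omega
  have hmb : P.b ≤ P.m := le_trans (Nat.le_mul_of_pos_right _ hB1) hbB
  -- the smallest column hub
  let z0 : Fin P.m := ⟨0, hm0⟩
  have step1 : D F (gph P) R ∅ (ww j') ≤ D F (gph P) R ∅ (ww z0) := by
    by_cases hj : j' = z0
    · rw [hj]
    · refine le_of_lt (hW z0 j' ?_)
      rw [Fin.lt_def]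
      have : (j' : ℕ) ≠ 0 := fun h0 => hj (Fin.ext h0)
      show 0 < (j' : ℕ)
      omega
  refine lt_of_le_of_lt step1 ?_
  -- the last column
  let zl : Fin P.m := ⟨P.m - 1, by omega⟩
  -- two bulk vertices of the first column
  let q1 : Bk P := ⟨(⟨1, by omega⟩, z0), fun h => absurd h (by simp)⟩
  let q2 : Bk P := ⟨(⟨2, by omega⟩, z0), fun h => absurd h (by simp)⟩
  have hq12 : q1 ≠ q2 := by
    intro h
    have h1 : ((q1 : Bk P).1.1 : ℕ) = ((q2 : Bk P).1.1 : ℕ) := by rw [h]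
    have h2 : (1 : ℕ) = 2 := h1
    omega
  obtain ⟨q, hqp, hq0⟩ : ∃ q : Bk P, q ≠ p ∧ (q.1.2 : ℕ) = 0 := by
    by_cases h : q1 = p
    · exact ⟨q2, fun h' => hq12 (h.trans h'.symm), rfl⟩
    · exact ⟨q1, h, rfl⟩
  have nbw : ∀ y : Vt P, y ∈ nb (gph P) (ww z0) ↔ ww z0 ≠ y ∧ ¬ Mis P (.w 0) (lab y) :=
    fun y => Iff.rfl
  have nbb : ∀ y : Vt P, y ∈ nb (gph P) (bk p) ↔
      bk p ≠ y ∧ ¬ Mis P (.bulk p.1.1 p.1.2) (lab y) := fun y => Iff.rfl
  obtain ⟨W, hWdef⟩ : ∃ W : Set (Vt P), W = {y | y ∈ nb (gph P) (ww z0) ∧ y ∉ nb (gph P) (bk p) ∧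
    y ≠ bk p ∧ y ∉ (∅ : Set (Vt P))} := ⟨_, rfl⟩
  have hWmem : ∀ y, y ∈ W ↔ y ∈ nb (gph P) (ww z0) ∧ y ∉ nb (gph P) (bk p) ∧
    y ≠ bk p ∧ y ∉ (∅ : Set (Vt P)) := by
    intro y
    rw [hWdef]
    rfl
  have hext : ∀ y ∈ W, y = ww p.1.2 ∧ (p.1.2 : ℕ) + 2 ≤ P.m ∧ (p.1.2 : ℕ) ≠ 0 := by
    intro y hy
    rw [hWmem, nbw, nbb] at hy
    obtain ⟨⟨a1, a2⟩, a3, a4, -⟩ := hy
    have hy2 : Mis P (.bulk p.1.1 p.1.2) (lab y) := by
      by_contra hcon
      exact a3 ⟨Ne.symm a4, hcon⟩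
    rcases y with q' | ⟨c1, l1⟩ | j1
    · exact absurd hy2 (by simp [lab, Mis])
    · exact absurd (show Mis P (.w 0) (lab (Sum.inr (Sum.inl (c1, l1)) : Vt P)) by
        simp [lab, Mis]) a2
    · have e1 : (p.1.2 : ℕ) = (j1 : ℕ) := hy2
      have e2 : ¬ (P.m < 0 + (j1 : ℕ) + 2) := a2
      have e3 : p.1.2 = j1 := Fin.ext e1
      refine ⟨?_, by omega, ?_⟩
      · rw [e3]
        rfl
      · intro h0
        apply a1
        have : j1 = z0 := Fin.ext (by rw [← e1, h0])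
        rw [this]
        rfl
  have hWc : W.ncard ≤ 1 := by
    rw [Set.ncard_le_one_iff (Set.toFinite _)]
    intro a b ha hb
    rw [(hext a ha).1, (hext b hb).1]
  have hnpos : (0 : ℝ) < Nat.card (Vt P) := by exact_mod_cast hn0
  have hk : (0 : ℝ) < Nat.card X := by
    obtain ⟨x, -, -⟩ := hR
    have : Nonempty X := ⟨x⟩
    exact_mod_cast Nat.card_pos (α := X)
  refine hM X (Vt P) F (gph P) R ∅ (ww z0) (bk p) ?_ (Set.notMem_empty _) (Set.notMem_empty _)
    (fun _ => ww zl) (bk q) (c * err X (Vt P) 2) (C * (P.r + P.m)) W hWmem ?_ ?_ ?_ ?_ ?_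
    (Set.notMem_empty _) ?_ ?_
  · intro he
    cases he
  · intro y hy
    obtain ⟨e1, e2, e3⟩ := hext y hy
    refine ⟨?_, ?_, ?_, Set.notMem_empty _, ?_, ?_⟩
    · rw [nbb]
      refine ⟨fun h => (by cases h), ?_⟩
      show ¬ ((p.1.2 : ℕ) = P.m - 1)
      omega
    · rw [nbw]
      rintro ⟨-, h4⟩
      apply h4
      show P.m < 0 + (P.m - 1) + 2
      omega
    · intro he
      have h5 : zl = z0 := Sum.inr_injective (Sum.inr_injective he)
      have h6 : P.m - 1 = 0 := congrArg Fin.val h5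
      omega
    · intro he
      cases he
    · rw [e1]
      refine (hsw p.1.2 zl).trans ?_
      have h5 : |((p.1.2 : ℕ) : ℝ) - ((zl : ℕ) : ℝ)| ≤ P.m := by
        have h6 : ((p.1.2 : ℕ) : ℝ) ≤ P.m := by exact_mod_cast p.1.2.2.le
        have h7 : ((zl : ℕ) : ℝ) ≤ P.m := by exact_mod_cast zl.2.le
        rw [abs_le]
        constructor
        · have : (0 : ℝ) ≤ ((p.1.2 : ℕ) : ℝ) := by positivity
          linarith
        · have : (0 : ℝ) ≤ ((zl : ℕ) : ℝ) := by positivity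
          linarith
      gcongr
  · intro y hy z hz _
    rw [(hext y hy).1, (hext z hz).1]
  · rw [nbb]
    refine ⟨fun h => hqp (Sum.inl_injective h).symm, fun h4 => h4⟩
  · rw [nbw]
    rintro ⟨-, h4⟩
    apply h4
    show (q.1.2 : ℕ) = 0
    exact hq0
  · intro he
    cases he
  · refine hL ∅ _ _ _ _ (by simp) (fun he => by cases he) (fun he => by cases he)
      (fun he => hqp (Sum.inl_injective he)) (Set.notMem_empty _) (Set.notMem_empty _)
      (Set.mem_insert _ _) ?_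
    have h4 := hmiss (ww z0)
    have h5 := hmiss (bk p)
    have hsub2 : {y : Vt P | (∃ p, y = bk p) ∧
        y ∉ insert (bk q) (nb (gph P) (ww z0) ∩ nb (gph P) (bk p) ∪
          (fun _ : Vt P => (ww zl : Vt P)) '' W)} ⊆
        {u : Vt P | (∃ p, u = bk p) ∧ u ∉ nb (gph P) (ww z0)} ∪
        {u : Vt P | (∃ p, u = bk p) ∧ u ∉ nb (gph P) (bk p)} := by
      rintro y ⟨h6, h8⟩
      by_cases h9 : y ∈ nb (gph P) (ww z0)
      · refine Or.inr ⟨h6, fun h10 => h8 ?_⟩
        exact Or.inr (Or.inl ⟨h9, h10⟩)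
      · exact Or.inl ⟨h6, h9⟩
    have h6 := (Set.ncard_le_ncard hsub2 (Set.toFinite _)).trans (Set.ncard_union_le _ _)
    have h7 : (P.b : ℝ) * B ≤ P.m := by exact_mod_cast hbB
    have h8 : (P.r : ℝ) * P.m ≤ Nat.card (Vt P) := by
      have := hn2
      push_cast at this
      exact this
    have h9 : 2 * C ≤ c * P.b := by
      have : (A4 : ℝ) ≤ P.b := by
        have : A4 ≤ P.b := by omega
        exact_mod_cast this
      rw [div_lt_iff₀ hc] at hA4
      nlinarith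
    calc _ ≤ (((({u : Vt P | (∃ p, u = bk p) ∧ u ∉ nb (gph P) (ww z0)} : Set (Vt P)).ncard +
          ({u : Vt P | (∃ p, u = bk p) ∧ u ∉ nb (gph P) (bk p)} : Set (Vt P)).ncard : ℕ)) : ℝ) := by
            exact_mod_cast h6
      _ ≤ 2 * C * (P.r * B) := by push_cast; linarith
      _ ≤ (c * P.b) * (P.r * B) := mul_le_mul_of_nonneg_right h9 (by positivity)
      _ = c * (P.r * (P.b * B)) := by ring
      _ ≤ c * (P.r * P.m) := by gcongr
      _ ≤ c * Nat.card (Vt P) := by gcongr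
  · rw [err_succ X (Vt P) 2]
    have he2 : 0 < err X (Vt P) 2 := by unfold err; positivity
    have hr0 : (0 : ℝ) < P.r := by exact_mod_cast hr1
    have hmr : (0 : ℝ) < P.m := by exact_mod_cast hm0
    have hb0 : (0 : ℝ) < P.b := by
      have : 0 < P.b := by omega
      exact_mod_cast this
    have h8 : (P.r : ℝ) * P.m ≤ Nat.card (Vt P) := by
      have := hn2
      push_cast at this
      exact this
    have hA5a : (A5 : ℝ) ≤ P.r := by
      have : A5 ≤ P.r := by omega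
      exact_mod_cast this
    have hA5b : (A5 : ℝ) ≤ P.b := by
      have : A5 ≤ P.b := by omega
      exact_mod_cast this
    have hA5m : (A5 : ℝ) ≤ P.m := by
      have : A5 ≤ P.m := by omega
      exact_mod_cast this
    have hA5' : C * (Nat.card X : ℝ) * 4 < c * A5 := by
      rw [div_lt_iff₀ hc] at hA5
      linarith
    have hbBm : (P.b : ℝ) * B ≤ P.m := by exact_mod_cast hbB
    have hB0 : (0 : ℝ) ≤ B := by positivity
    -- the numbers
    have hsd' := hsd (ww z0) (bk p)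
    have hWc' : (W.ncard : ℝ) ≤ 1 := by exact_mod_cast hWc
    have h20 : (W.ncard : ℝ) * (C * (P.r + P.m)) + ((sd (gph P) (ww z0) (bk p)).ncard : ℝ) ≤
        C * (P.r + 2 * P.m + P.r * B) := by
      have h21 : (W.ncard : ℝ) * (C * (P.r + P.m)) ≤ 1 * (C * (P.r + P.m)) :=
        mul_le_mul_of_nonneg_right hWc' (by positivity)
      nlinarith
    have h10 : (A5 : ℝ) * (P.r + 2 * P.m + P.r * B) ≤ 4 * (P.r * P.m) := by
      have g1 : (A5 : ℝ) * P.r ≤ P.m * P.r := mul_le_mul_of_nonneg_right hA5m hr0.le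
      have g2 : (A5 : ℝ) * P.m ≤ P.r * P.m := mul_le_mul_of_nonneg_right hA5a hmr.le
      have g3 : (A5 : ℝ) * (P.r * B) ≤ P.b * (P.r * B) :=
        mul_le_mul_of_nonneg_right hA5b (by positivity)
      have g4 : (P.b : ℝ) * (P.r * B) ≤ P.r * P.m := by
        calc (P.b : ℝ) * (P.r * B) = P.r * (P.b * B) := by ring
          _ ≤ P.r * P.m := by gcongr
      nlinarith
    have key : C * (P.r + 2 * P.m + P.r * B) * (Nat.card X : ℝ) < c * Nat.card (Vt P) := by
      have h9 : (C * (Nat.card X : ℝ) * 4) * (P.r * P.m) < (c * A5) * (P.r * P.m) :=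
        mul_lt_mul_of_pos_right hA5' (by positivity)
      have h11 : C * (Nat.card X : ℝ) * ((A5 : ℝ) * (P.r + 2 * P.m + P.r * B)) ≤
          C * (Nat.card X : ℝ) * (4 * (P.r * P.m)) :=
        mul_le_mul_of_nonneg_left h10 (by positivity)
      have h12 : (A5 : ℝ) * (C * (P.r + 2 * P.m + P.r * B) * (Nat.card X : ℝ)) <
          A5 * (c * (P.r * P.m)) := by
        calc _ = C * (Nat.card X : ℝ) * ((A5 : ℝ) * (P.r + 2 * P.m + P.r * B)) := by ring
          _ ≤ _ := h11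
          _ = (C * (Nat.card X : ℝ) * 4) * (P.r * P.m) := by ring
          _ < _ := h9
          _ = A5 * (c * (P.r * P.m)) := by ring
      have h13 := lt_of_mul_lt_mul_left h12 (by positivity)
      exact h13.trans_le (by gcongr)
    have h14 : C * (P.r + 2 * P.m + P.r * B) * ((Nat.card X : ℝ) / Nat.card (Vt P)) < c := by
      rw [← mul_div_assoc, div_lt_iff₀ hnpos]
      exact key
    have hq : (0 : ℝ) ≤ (Nat.card X : ℝ) / Nat.card (Vt P) := by positivity
    calc _ ≤ C * (P.r + 2 * P.m + P.r * B) *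
          (err X (Vt P) 2 * ((Nat.card X : ℝ) / Nat.card (Vt P))) :=
            mul_le_mul_of_nonneg_right h20 (by positivity)
      _ = (C * (P.r + 2 * P.m + P.r * B) * ((Nat.card X : ℝ) / Nat.card (Vt P))) *
          err X (Vt P) 2 := by ring
      _ < c * err X (Vt P) 2 := mul_lt_mul_of_pos_right h14 he2

end Pool.Agent.K7.H7.UI
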